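import Pool.Agent.Helper49.CA.Stm

/-!
# Random features: from one length to all lengths up to a bound
-/

set_option autoImplicit false

namespace Pool.Agent.Helper45.CA

open Finset BigOperators Pool.Agent.NPC
open Pool.Agent.H579R2.Spt (BL mem_BL take_poly' drop_poly')
open Pool.Agent.Helper6K1.BN
open Pool.Agent.Helper49.CA

theorem two_pow_size_le' (N : ℕ) : 2 ^ N.size ≤ 2 * N + 1 := by
  rcases Nat.eq_zero_or_pos N with rfl | h
  · simp
  · have h1 : 0 < N.size := Nat.size_pos.2 h
    have h2 : 2 ^ (N.size - 1) ≤ N := Nat.lt_size.1 (by omega)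
    have h3 : 2 ^ N.size = 2 * 2 ^ (N.size - 1) := by
      rw [← pow_succ']
      congr 1
      omega
    omega

theorem valB_inj : ∀ {l l' : List Bool}, l.length = l'.length → valB l = valB l' → l = l'
  | [], [], _, _ => rfl
  | a :: l, b :: l', h, h' => by
    rw [valB_cons, valB_cons] at h'
    have h1 : a = b := by
      cases a <;> cases b
      · rfl
      · exfalso
        simp only [Bool.false_eq_true, if_false, if_true] at h'
        omega
      · exfalso
        simp only [Bool.false_eq_true, if_false, if_true] at h'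
        omega
      · rfl
    subst h1
    have h2 : valB l = valB l' := by omega
    rw [valB_inj (by simpa using h) h2]

theorem exists_valB : ∀ (s n : ℕ), n < 2 ^ s → ∃ l : List Bool, l.length = s ∧ valB l = n
  | 0, n, h => ⟨[], rfl, by simp at h; simp [h]⟩
  | s + 1, n, h => by
    obtain ⟨l, h1, h2⟩ := exists_valB s (n / 2) (by rw [pow_succ] at h; omega)
    refine ⟨decide (n % 2 = 1) :: l, by simp [h1], ?_⟩
    rw [valB_cons, h2]
    rcases Nat.mod_two_eq_zero_or_one n with h3 | h3
    · simp [h3]
      omega
    · simp [h3]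
      omega

/-- One block only. -/
theorem expect_valB {s n : ℕ} {a0 : List Bool} (ha0 : a0.length = s)
    (h0 : valB a0 = n) (F : List Bool → ℝ) :
    𝔼 a ∈ BL s, (if valB a = n then F a else 0) = F a0 / 2 ^ s := by
  rw [expect_eq_sum_div_card, card_BL']
  congr 1
  rw [Finset.sum_eq_single a0]
  · rw [if_pos h0]
  · intro a ha hne
    rw [mem_BL] at ha
    rw [if_neg]
    intro h
    exact hne (valB_inj (by rw [ha, ha0]) (by rw [h, h0]))
  · intro h
    exact absurd (mem_BL.2 ha0) h

theorem expect_three (s m : ℕ) (G : List Bool → List Bool → List Bool → ℝ) :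
    𝔼 r ∈ BL (s + (1 + m)), G (r.take s) ((r.drop s).take 1) ((r.drop s).drop 1) =
      𝔼 a ∈ BL s, 𝔼 c ∈ BL 1, 𝔼 v ∈ BL m, G a c v := by
  rw [expect_BL_split s (1 + m) fun a b => G a (b.take 1) (b.drop 1)]
  exact expect_congr rfl fun a _ => expect_BL_split 1 m fun c v => G a c v

section

variable (ρ q : Polynomial ℕ) (w : ℕ → List Bool → ℝ) (θ : ℕ → ℝ)

/-- The bounded threshold. -/
noncomputable def th (n : ℕ) : ℝ := max (-(((q.eval n : ℕ) : ℝ) + 2)) (min (θ n) (((q.eval n : ℕ) : ℝ) + 1))

/-- The factor. -/
noncomputable def KK (N : ℕ) : ℝ := 2 * 2 ^ N.size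

open Classical in
/-- The weights. -/
noncomputable def WW (N : ℕ) (a c v : List Bool) : ℝ :=
  if valB a ≤ N then
    (if c = [true] then -(KK N * th q θ (valB a)) else KK N * w (valB a) (v.take (ρ.eval (valB a))))
  else 0

/-- The weights, for one string. -/
noncomputable def ww (N : ℕ) (r : List Bool) : ℝ :=
  WW ρ q w θ N (r.take N.size) ((r.drop N.size).take 1) ((r.drop N.size).drop 1)

/-- The features. -/
noncomputable def ff (V : List Bool → List Bool) (b : List Bool × List Unit × List Bool) : Bool :=
  decide (valB (b.2.2.take b.2.1.length.size) = b.1.length) &&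
    (decide ((b.2.2.drop b.2.1.length.size).take 1 = [true]) ||
      decide (V (pairBits b.1 (((b.2.2.drop b.2.1.length.size).drop 1).take
        (ρ.eval b.1.length))) = [true]))

theorem ff_poly {V : List Bool → List Bool} (hV : PolyTime V) : NPC.Poly (ff ρ V) := by
  have hV' : NPC.Poly V := PIso.poly_iff.2 hV
  have ex : NPC.Poly (fun b : List Bool × List Unit × List Bool => b.1) := NPC.Poly.fst NPC.Poly.id
  have eu : UPoly (fun b : List Bool × List Unit × List Bool => b.2.1.length) :=
    UPoly.length (NPC.Poly.fst (NPC.Poly.snd NPC.Poly.id))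
  have er : NPC.Poly (fun b : List Bool × List Unit × List Bool => b.2.2) :=
    NPC.Poly.snd (NPC.Poly.snd NPC.Poly.id)
  have es : UPoly (fun b : List Bool × List Unit × List Bool => b.2.1.length.size) := size_upoly eu
  have exl : UPoly (fun b : List Bool × List Unit × List Bool => b.1.length) := UPoly.length ex
  have e1 := take_poly' er es.toPoly
  have e2 := drop_poly' er es.toPoly
  have e3 := take_poly' e2 (NPC.Poly.const 1)
  have e4 := drop_poly' e2 (NPC.Poly.const 1)
  have e5 := take_poly' e4 (exl.eval ρ).toPoly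
  unfold ff
  exact NPC.Poly.and (NPC.Poly.decide_eq (NPC.Poly.valBits e1) exl.toPoly)
    (NPC.Poly.or (NPC.Poly.decide_eq e3 (NPC.Poly.const [true]))
      (NPC.Poly.decide_eq (hV'.comp (poly_pairBits ex e5)) (NPC.Poly.const [true])))

end

theorem sq_mean_le (n : ℕ) (f : List Bool → ℝ) : (𝔼 r ∈ BL n, f r) ^ 2 ≤ 𝔼 r ∈ BL n, f r ^ 2 := by
  set m := 𝔼 r ∈ BL n, f r with hm
  have h1 : 0 ≤ 𝔼 r ∈ BL n, (f r - m) ^ 2 := expect_nonneg fun r _ => sq_nonneg _
  have h2 : 𝔼 r ∈ BL n, (f r - m) ^ 2 = 𝔼 r ∈ BL n, (f r ^ 2 + (-(2 * m)) * f r + m ^ 2) :=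
    expect_congr rfl fun r _ => by ring
  rw [h2, expect_add_distrib, expect_add_distrib, expect_const (BL_nonempty n), ← mul_expect,
    ← hm] at h1
  nlinarith

theorem t2 : S2 := by
  classical
  rintro L ⟨V, ρ, q, w, θ, hV, hw, hsep⟩
  -- the mean squares
  have hw' : ∀ n : ℕ, 𝔼 r ∈ BL (ρ.eval n), w n r ^ 2 ≤ ((q.eval n : ℕ) : ℝ) := fun n => by
    rw [← mean_eq]
    exact hw n
  set D : Polynomial ℕ := Polynomial.C 4 * (Polynomial.C 2 * Polynomial.X + 1) ^ 2 *
    ((q + Polynomial.C 2) ^ 2 + q) with hD
  have hDe : ∀ N, D.eval N = 4 * (2 * N + 1) ^ 2 * ((q.eval N + 2) ^ 2 + q.eval N) := fun N => by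
    simp [hD]
  refine ⟨ff ρ V, Polynomial.X + 1 + ρ, D, ww ρ q w θ, ff_poly ρ hV, fun N => ?_,
    fun N x hx => ?_⟩
  · -- the mean square
    have hs : N.size ≤ N := NPC.Poly.size_le_self N
    have hsplit : (Polynomial.X + 1 + ρ : Polynomial ℕ).eval N =
        N.size + (1 + ((N - N.size) + ρ.eval N)) := by
      simp only [Polynomial.eval_add, Polynomial.eval_X, Polynomial.eval_one]
      omega
    rw [hsplit]
    have h1 : 𝔼 r ∈ BL (N.size + (1 + ((N - N.size) + ρ.eval N))), ww ρ q w θ N r ^ 2 =
        𝔼 a ∈ BL N.size, 𝔼 c ∈ BL 1, 𝔼 v ∈ BL ((N - N.size) + ρ.eval N),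
          WW ρ q w θ N a c v ^ 2 :=
      expect_three N.size _ fun a c v => WW ρ q w θ N a c v ^ 2
    rw [h1]
    refine expect_le (BL_nonempty _) fun a ha => ?_
    have hK : KK N ^ 2 ≤ 4 * (2 * (N : ℝ) + 1) ^ 2 := by
      unfold KK
      have h2 : ((2 : ℝ) ^ N.size) ≤ 2 * N + 1 := by exact_mod_cast two_pow_size_le' N
      have h3 : (0 : ℝ) ≤ 2 ^ N.size := by positivity
      nlinarith
    have hK0 : 0 ≤ KK N ^ 2 := sq_nonneg _
    rw [hDe]
    push_cast
    set Q : ℝ := ((q.eval N : ℕ) : ℝ) with hQ
    have hQ0 : 0 ≤ Q := by positivity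
    by_cases hle : valB a ≤ N
    · have hqm : ((q.eval (valB a) : ℕ) : ℝ) ≤ Q := by
        rw [hQ]
        exact_mod_cast eval_mono q hle
      have hqa : (0 : ℝ) ≤ ((q.eval (valB a) : ℕ) : ℝ) := by positivity
      rw [expect_BL_one]
      have e1 : 𝔼 v ∈ BL ((N - N.size) + ρ.eval N), WW ρ q w θ N a [true] v ^ 2 =
          KK N ^ 2 * th q θ (valB a) ^ 2 := by
        rw [← expect_const (BL_nonempty ((N - N.size) + ρ.eval N))
          (KK N ^ 2 * th q θ (valB a) ^ 2)]
        refine expect_congr rfl fun v _ => ?_
        unfold WW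
        rw [if_pos hle, if_pos rfl]
        ring
      have hth : th q θ (valB a) ^ 2 ≤ (Q + 2) ^ 2 := by
        unfold th
        set q0 : ℝ := ((q.eval (valB a) : ℕ) : ℝ) with hq0
        have h2 : -(q0 + 2) ≤ max (-(q0 + 2)) (min (θ (valB a)) (q0 + 1)) := le_max_left _ _
        have h3 : max (-(q0 + 2)) (min (θ (valB a)) (q0 + 1)) ≤ q0 + 1 :=
          max_le (by linarith) (min_le_right _ _)
        refine sq_le_sq' (by linarith) (by linarith)
      have e2 : 𝔼 v ∈ BL ((N - N.size) + ρ.eval N), WW ρ q w θ N a [false] v ^ 2 =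
          KK N ^ 2 * 𝔼 v ∈ BL (ρ.eval (valB a)), w (valB a) v ^ 2 := by
        have h2 : ρ.eval (valB a) ≤ ρ.eval N := eval_mono ρ hle
        obtain ⟨d, hd⟩ : ∃ d, (N - N.size) + ρ.eval N = ρ.eval (valB a) + d :=
          Nat.exists_eq_add_of_le (by omega)
        rw [hd, mul_expect, ← expect_BL_take (ρ.eval (valB a)) d
          fun v => KK N ^ 2 * w (valB a) v ^ 2]
        refine expect_congr rfl fun v _ => ?_
        unfold WW
        rw [if_pos hle, if_neg (by simp)]
        ring
      rw [e1, e2]
      have h4 := hw' (valB a)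
      have h5 : KK N ^ 2 * (th q θ (valB a) ^ 2) ≤ 4 * (2 * (N : ℝ) + 1) ^ 2 * (Q + 2) ^ 2 :=
        mul_le_mul hK hth (sq_nonneg _) (by positivity)
      have h6 : KK N ^ 2 * (𝔼 v ∈ BL (ρ.eval (valB a)), w (valB a) v ^ 2) ≤
          4 * (2 * (N : ℝ) + 1) ^ 2 * Q :=
        mul_le_mul hK (h4.trans hqm) (expect_nonneg fun v _ => sq_nonneg _) (by positivity)
      have h7 : 0 ≤ 4 * (2 * (N : ℝ) + 1) ^ 2 * (Q + 2) ^ 2 := by positivity
      have h8 : 0 ≤ 4 * (2 * (N : ℝ) + 1) ^ 2 * Q := by positivity
      nlinarith
    · have e1 : ∀ c v, WW ρ q w θ N a c v ^ 2 = 0 := by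
        intro c v
        unfold WW
        rw [if_neg hle]
        norm_num
      simp only [e1]
      rw [expect_const_zero, expect_const_zero]
      positivity
  · -- the separation
    have hs : N.size ≤ N := NPC.Poly.size_le_self N
    have hxN : x.length < 2 ^ N.size := lt_of_le_of_lt hx (Nat.lt_size_self N)
    obtain ⟨a0, ha0, hv0⟩ := exists_valB N.size x.length hxN
    have hsplit : (Polynomial.X + 1 + ρ : Polynomial ℕ).eval N =
        N.size + (1 + ((N - N.size) + ρ.eval N)) := by
      simp only [Polynomial.eval_add, Polynomial.eval_X, Polynomial.eval_one]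
      omega
    rw [hsplit]
    set Mx : ℝ := 𝔼 r ∈ BL (ρ.eval x.length),
      (if V (pairBits x r) = [true] then w x.length r else 0) with hMx
    have hmean : mean (ρ.eval x.length) (fun r => if V (pairBits x r) = [true] then
        w x.length r else 0) = Mx := mean_eq _ _
    have hval : 𝔼 r ∈ BL (N.size + (1 + ((N - N.size) + ρ.eval N))),
        (if ff ρ V (x, List.replicate N (), r) = true then ww ρ q w θ N r else 0) =
          Mx - th q θ x.length := by
      have h1 : 𝔼 r ∈ BL (N.size + (1 + ((N - N.size) + ρ.eval N))),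
          (if ff ρ V (x, List.replicate N (), r) = true then ww ρ q w θ N r else 0) =
          𝔼 a ∈ BL N.size, 𝔼 c ∈ BL 1, 𝔼 v ∈ BL ((N - N.size) + ρ.eval N),
            (if (decide (valB a = x.length) && (decide (c = [true]) ||
              decide (V (pairBits x (v.take (ρ.eval x.length))) = [true]))) = true
              then WW ρ q w θ N a c v else 0) := by
        refine Eq.trans (expect_congr rfl fun r _ => ?_)
          (expect_three N.size _ fun a c v =>
            if (decide (valB a = x.length) && (decide (c = [true]) ||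
              decide (V (pairBits x (v.take (ρ.eval x.length))) = [true]))) = true
              then WW ρ q w θ N a c v else 0)
        unfold ff ww
        simp only [List.length_replicate]
      rw [h1]
      have h2 : ∀ a ∈ BL N.size, 𝔼 c ∈ BL 1, 𝔼 v ∈ BL ((N - N.size) + ρ.eval N),
            (if (decide (valB a = x.length) && (decide (c = [true]) ||
              decide (V (pairBits x (v.take (ρ.eval x.length))) = [true]))) = true
              then WW ρ q w θ N a c v else 0) =
          if valB a = x.length then (2 ^ N.size * (Mx - th q θ x.length)) else 0 := by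
        intro a _
        by_cases hva : valB a = x.length
        · rw [if_pos hva, expect_BL_one]
          have e1 : 𝔼 v ∈ BL ((N - N.size) + ρ.eval N),
              (if (decide (valB a = x.length) && (decide ([true] = [true]) ||
              decide (V (pairBits x (v.take (ρ.eval x.length))) = [true]))) = true
              then WW ρ q w θ N a [true] v else 0) = -(KK N * th q θ x.length) := by
            rw [← expect_const (BL_nonempty ((N - N.size) + ρ.eval N)) (-(KK N * th q θ x.length))]
            refine expect_congr rfl fun v _ => ?_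
            rw [if_pos (by simp [hva])]
            unfold WW
            rw [if_pos (by omega), if_pos rfl, hva]
          have e2 : 𝔼 v ∈ BL ((N - N.size) + ρ.eval N),
              (if (decide (valB a = x.length) && (decide ([false] = [true]) ||
              decide (V (pairBits x (v.take (ρ.eval x.length))) = [true]))) = true
              then WW ρ q w θ N a [false] v else 0) = KK N * Mx := by
            have h2 : ρ.eval x.length ≤ ρ.eval N := eval_mono ρ hx
            obtain ⟨d, hd⟩ : ∃ d, (N - N.size) + ρ.eval N = ρ.eval x.length + d :=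
              Nat.exists_eq_add_of_le (by omega)
            rw [hd, hMx, mul_expect, ← expect_BL_take (ρ.eval x.length) d
              fun v => KK N * if V (pairBits x v) = [true] then w x.length v else 0]
            refine expect_congr rfl fun v _ => ?_
            have e3 : WW ρ q w θ N a [false] v =
                KK N * w x.length (v.take (ρ.eval x.length)) := by
              unfold WW
              rw [hva, if_pos hx, if_neg (by simp)]
            rw [e3]
            by_cases hVv : V (pairBits x (v.take (ρ.eval x.length))) = [true]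
            · rw [if_pos (by simp [hva, hVv]), if_pos hVv]
            · rw [if_neg (by simp [hVv]), if_neg hVv, mul_zero]
          rw [e1, e2]
          unfold KK
          ring
        · rw [if_neg hva]
          have e1 : ∀ c v, (if (decide (valB a = x.length) && (decide (c = [true]) ||
              decide (V (pairBits x (v.take (ρ.eval x.length))) = [true]))) = true
              then WW ρ q w θ N a c v else 0) = 0 := by
            intro c v
            rw [if_neg]
            simp [hva]
          simp only [e1]
          rw [expect_const_zero, expect_const_zero]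
      rw [expect_congr rfl h2, expect_valB ha0 hv0 fun _ =>
        2 ^ N.size * (Mx - th q θ x.length)]
      field_simp
    rw [hval]
    -- the bound for the mean
    have hM2 : Mx ^ 2 ≤ ((q.eval x.length : ℕ) : ℝ) := by
      refine (sq_mean_le _ _).trans (le_trans (expect_le_expect fun r _ => ?_) (hw' x.length))
      split_ifs
      · exact le_rfl
      · rw [zero_pow two_ne_zero]
        exact sq_nonneg _
    set q0 : ℝ := ((q.eval x.length : ℕ) : ℝ) with hq0
    have hq00 : 0 ≤ q0 := by positivity
    have hM3 : |Mx| ≤ q0 + 1 := by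
      refine abs_le_of_sq_le_sq ?_ (by positivity)
      nlinarith
    rw [abs_le] at hM3
    obtain ⟨h3, h4⟩ := hsep x
    rw [hmean] at h3 h4
    unfold th
    rw [← hq0]
    constructor
    · intro hxL
      have h5 := h3 hxL
      rcases le_total (-(q0 + 2)) (min (θ x.length) (q0 + 1)) with h6 | h6
      · rw [max_eq_right h6]
        have := min_le_left (θ x.length) (q0 + 1)
        linarith
      · rw [max_eq_left h6]
        linarith
    · intro hxL
      have h5 := h4 hxL
      have h6 : min (θ x.length) (q0 + 1) ≤ max (-(q0 + 2)) (min (θ x.length) (q0 + 1)) :=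
        le_max_right _ _
      rcases le_total (θ x.length) (q0 + 1) with h7 | h7
      · rw [min_eq_left h7] at h6 ⊢
        linarith
      · rw [min_eq_right h7] at h6 ⊢
        linarith

end Pool.Agent.Helper45.CA
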