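import Pool.Agent.Helper49.CA.Stm

/-!
# Random features: closure under reductions
-/

set_option autoImplicit false

namespace Pool.Agent.Helper45.CA

open Finset BigOperators Pool.Agent.NPC
open Pool.Agent.H579R2.Spt (BL mem_BL take_poly' drop_poly')
open Pool.Agent.Helper6K1.BN
open Pool.Agent.Helper49.CA

theorem t3 : S3 := by
  intro A L hred hA
  obtain ⟨φ, hφ, hφA⟩ := hred
  obtain ⟨f, ρ, q, w, hf, hw, hsep⟩ := hA
  have hφP : NPC.Poly φ := PIso.poly_iff.2 hφ
  obtain ⟨p, hp⟩ := hφP.sz_le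
  set R : Polynomial ℕ := p.comp (Polynomial.C 4 * Polynomial.X + 1) with hR
  have hRe : ∀ N, R.eval N = p.eval (4 * N + 1) := fun N => by simp [hR]
  have hlen : ∀ (N : ℕ) (x : List Bool), x.length ≤ N → (φ x).length ≤ R.eval N := by
    intro N x hx
    have e1 := hp x
    have e2 := length_lt_sz (φ x)
    have e3 := sz_listBool_le x
    have e4 : p.eval (sz x) ≤ p.eval (4 * N + 1) := eval_mono p (by omega)
    rw [hRe]
    omega
  refine ⟨fun a => f (φ a.1, List.replicate (R.eval a.2.1.length) (), a.2.2), ρ.comp R, q.comp R,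
    fun N => w (R.eval N), ?_, fun N => ?_, fun N x hx => ?_⟩
  · exact NPC.Poly.comp (f := fun a : List Bool × List Unit × List Bool =>
      (φ a.1, List.replicate (R.eval a.2.1.length) (), a.2.2)) hf
      (NPC.Poly.pair (hφP.comp (NPC.Poly.fst NPC.Poly.id))
        (NPC.Poly.pair ((UPoly.length (NPC.Poly.fst (NPC.Poly.snd NPC.Poly.id))).eval R)
          (NPC.Poly.snd (NPC.Poly.snd NPC.Poly.id))))
  · simp only [Polynomial.eval_comp (p := ρ), Polynomial.eval_comp (p := q)]
    exact hw (R.eval N)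
  · rw [Polynomial.eval_comp]
    simp only [List.length_replicate]
    obtain ⟨e1, e2⟩ := hsep (R.eval N) (φ x) (hlen N x hx)
    exact ⟨fun h => e1 ((hφA x).1 h), fun h => e2 fun h' => h ((hφA x).2 h')⟩

end Pool.Agent.Helper45.CA
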